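import Pool.Agent.Helper4.PQS.St0

/-!
# Project PQS (MP_2b6189_al), module KPR
-/

set_option autoImplicit false

namespace Pool.Agent.Helper61.PQS

open Pool.Agent.Helper89.OS Pool.Agent.Helper89.OC Pool.Agent.Helper4.PQS

theorem mem_Ks {I : Type} [Fintype I] [DecidableEq I] {p : ℕ} (X : PD I p 1) (k : I) :
    k ∈ Ks X ↔ X.y k ≠ 0 ∧ X.t k = 1 ∧ k ≠ X.o := by
  simp only [Ks, Finset.mem_filter, Finset.mem_univ, true_and]

theorem mem_Kp {I : Type} [Fintype I] [DecidableEq I] {p : ℕ} (X : PD I p 1) (a k : I) :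
    k ∈ Kp X a ↔ k ∈ Ks X ∧ k ∉ Orb X a := by
  simp only [Kp, Finset.mem_filter]

theorem hKPR : StKPR := by
  classical
  intro I _ _ p _ X Q N a hG q s hqs
  by_contra hcon
  push Not at hcon
  have hTS := fun k h1 h2 h3 => (Helper45.OS.hTSU Helper47.OS.hSTL Helper8.OS.hHEC Helper39.OS.hMZZ
    Helper94.YF.hRAT' I p X Q hG.blk k h1 h2 h3).2
  have hO := Helper78.OC.hORB I p X
  have hM := (Helper39.OS.hMZZ I p X).2.2.2.2.1
  have hg2 : 2 ≤ gX X := hM
  have key : ∀ k ∈ Kp X a, q.Prime ∧ q ∣ X.d k := by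
    intro k hk
    obtain ⟨h1, h2⟩ := hcon k hk
    have hk' := (mem_Ks X k).1 ((mem_Kp X a k).1 hk).1
    have hpd : ¬ p ∣ X.d k := hG.blk.d_nd k hk'.1
    have hco : Nat.Coprime (X.d k) p := (Nat.Coprime.symm ((Nat.Prime.coprime_iff_not_dvd X.prime).2 hpd))
    have hdm : X.d k ∣ X.m := hco.dvd_of_dvd_mul_left (X.d_dvd k)
    have hd1 : 1 < X.d k := by
      have := X.d_pos k
      omega
    obtain ⟨u, v, hu, hv, huv, hud, hvd⟩ := Pool.Agent.Helper46.WG.two_primes hd1 h2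
    rcases hqs u hu (hud.trans hdm) with h | h
    · rw [← h]; exact ⟨hu, hud⟩
    · rcases hqs v hv (hvd.trans hdm) with h' | h'
      · rw [← h']; exact ⟨hv, hvd⟩
      · exact absurd (h.trans h'.symm) huv
  have hdm := hG.dm
  rcases (Kp X a).eq_empty_or_nonempty with he | ⟨k1, hk1⟩
  · rw [he, Finset.sum_empty] at hdm
    omega
  have hqp := (key k1 hk1).1
  have hcl : ∀ k ∈ Kp X a, ∀ j ∈ Orb X k, j ∈ Kp X a := by
    intro k hk j hj
    obtain ⟨h1, h2⟩ := (mem_Kp X a k).1 hk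
    obtain ⟨h3, h4, h5⟩ := (mem_Ks X k).1 h1
    refine (mem_Kp X a j).2 ⟨(mem_Ks X j).2 ⟨?_, hO.t k j hj h4, ?_⟩, ?_⟩
    · rw [hO.y k j hj]; exact h3
    · intro h; rw [h] at hj; exact h5 (hO.o k hj)
    · intro h
      apply h2
      rw [← hO.eq a j h, hO.eq k j hj]
      exact hO.self k
  have hdvd : gX X * (q : ℤ) ∣ ∑ k ∈ Kp X a, X.y k * (X.d k : ℤ) := by
    rw [← Finset.sum_fiberwise_of_maps_to (s := Kp X a) (t := (Kp X a).image (Orb X)) (g := Orb X)
      (fun k hk => Finset.mem_image_of_mem _ hk)]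
    apply Finset.dvd_sum
    intro O hOm
    obtain ⟨k, hk, rfl⟩ := Finset.mem_image.1 hOm
    have hset : (Kp X a).filter (fun j => Orb X j = Orb X k) = Orb X k := by
      ext j
      rw [Finset.mem_filter]
      constructor
      · rintro ⟨_, h2⟩
        rw [← h2]; exact hO.self j
      · intro h
        exact ⟨hcl k hk j h, hO.eq k j h⟩
    rw [hset]
    have hsum : ∑ j ∈ Orb X k, X.y j * (X.d j : ℤ) = ((Orb X k).card : ℤ) * X.y k * (X.d k : ℤ) := by
      rw [Finset.sum_congr rfl (fun j hj => by rw [hO.y k j hj, hO.d k j hj]),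
        Finset.sum_const, nsmul_eq_mul]
      ring
    rw [hsum]
    have hk' := (mem_Ks X k).1 ((mem_Kp X a k).1 hk).1
    exact mul_dvd_mul (hTS k hk'.1 hk'.2.1 hk'.2.2) (by exact_mod_cast (key k hk).2)
  rw [hdm] at hdvd
  have hq1 : (q : ℤ) ∣ 1 := by
    have h0 : gX X ≠ 0 := by omega
    have : gX X * (q : ℤ) ∣ gX X * 1 := by rw [mul_one]; exact hdvd
    exact (mul_dvd_mul_iff_left h0).1 this
  have := Int.le_of_dvd one_pos hq1
  have := hqp.two_le
  omega

end Pool.Agent.Helper61.PQS
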